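import Pool.Agent.Work.MP_8cbffb_h28.All3

/-!
# Ideal polyhedra of maximal volume are simplicial (MP_8cbffb_gt)

The upper half-space model: hyperbolic space is the set of the pairs `p = (z, t)` with `z` complex
and `t > 0`, its volume form is `dx dy dt / t³`, and its ideal points are the complex numbers
(`some z`) and infinity (`none`). The definitions are in
`Pool/Agent/Work/MP_8cbffb_h28/Interface2.lean`:

* `lvp a b c p = a (|z|² + t²) + Re (b̄ z) + c`, the closed half-spaces are the sets
  `{p | lvp a b c p ≤ 0}` with `|b|² > 4 a c`; `lev a b c` is the same function at the ideal points
  (with the value `a` at infinity);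
* `hullG V` is the ideal polyhedron with the set of vertices `V`: the intersection of all closed
  half-spaces whose closure contains `V`;
* `volG V` is its hyperbolic volume.

Proof: one may assume that a vertex which is not on the support plane is at infinity; let `Z` be
the set of the other vertices. The volume is the integral of `1 / (2 D(z))` over the convex hull of
`Z`, where `D(z)` is the least value of `∑ l_i |w_i|² - |z|²` for the convex combinations
`z = ∑ l_i w_i`. For the polyhedra with the vertices `w + t β w̄` and infinity the same convex
combinations give a lower bound for the volume with equality for `t = 0`. If four points are on an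
empty circle there are different minimal combinations (the two diagonals) on an open set, with
different first order terms for a suitable `β`; so the volume is larger than at `t = 0` for some
arbitrarily small `t`.
-/

set_option autoImplicit false

namespace Pool.Agent.Results.MP_8cbffb_gt.Simplicial

open Pool.Ipm

/-- Let `V` be a finite set of ideal points and suppose that some closed half-space whose closure
contains `V` has at least four points of `V`, but not all of them, on its boundary (the polyhedron
`hullG V` has a face which is not a triangle). Then for every `ε > 0` the finite points of `V` can be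
moved by less than `ε`, infinity fixed, the number of the points unchanged, such that the volume
becomes larger; it stays finite. -/
theorem result (V : Finset (Option ℂ)) (a : ℝ) (b : ℂ) (c : ℝ)
    (hV : ∀ v ∈ V, lev a b c v ≤ 0) (hne : ∃ v ∈ V, lev a b c v ≠ 0)
    (h4 : 4 ≤ {v | v ∈ V ∧ lev a b c v = 0}.ncard) (ε : ℝ) (hε : 0 < ε) :
    ∃ φ : ℂ → ℂ, Function.Injective φ ∧ (∀ z, some z ∈ V → ‖φ z - z‖ < ε) ∧
      volG V < volG (V.image (Option.map φ)) ∧ volG (V.image (Option.map φ)) < ⊤ := by
  obtain ⟨φ, h1, h2, h3⟩ := general_local2 V a b c hV hne h4 ε hε
  exact ⟨φ, h1, h2, h3, general_finite _⟩

/-- All faces of an ideal polyhedron of maximal volume are triangles: if `V` is not on one circle or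
line and its volume is maximal among the sets with the same number of points, then every closed
half-space whose closure contains `V` has at most three points of `V` on its boundary. -/
theorem maximal (V : Finset (Option ℂ)) (hNC : NC V)
    (hmax : ∀ V' : Finset (Option ℂ), V'.card = V.card → NC V' → volG V' ≤ volG V)
    (a : ℝ) (b : ℂ) (c : ℝ) (hne : ¬ (a = 0 ∧ b = 0 ∧ c = 0)) (hV : ∀ v ∈ V, lev a b c v ≤ 0) :
    {v | v ∈ V ∧ lev a b c v = 0}.ncard ≤ 3 :=
  general_form V hNC hmax a b c hne hV

end Pool.Agent.Results.MP_8cbffb_gt.Simplicial
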